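import Mathlib

/-!
# Sufficient conditions for semisparse subgroups of string C-groups

We answer Q1 of MP_bc764a_al affirmatively, in every rank `≥ 2` and for every (finite or
infinite) string C-group: if all conjugates of `Σ` meet `Γ₀` and `Γ_{n-1}` in semisparse
subgroups and `Σ^φ ∩ Γ₀Γ_{n-1} = (Σ^φ ∩ Γ₀)(Σ^φ ∩ Γ_{n-1})` for all `φ`, then `Σ` is semisparse.
-/

set_option autoImplicit false

open scoped Pointwise

namespace Pool.Agent.Results.MP_bc764a_al.SemisparseCriterion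

/-- `Γ_I = ⟨ρ i : i ∈ I⟩`. -/
def par {Γ : Type*} [Group Γ] {n : ℕ} (ρ : Fin n → Γ) (I : Set (Fin n)) : Subgroup Γ :=
  Subgroup.closure (ρ '' I)

/-- `Γ` is a string C-group of rank `n` with distinguished involutory generators
`ρ 0, …, ρ (n-1)`. -/
structure IsStringC {Γ : Type*} [Group Γ] {n : ℕ} (ρ : Fin n → Γ) : Prop where
  gen : Subgroup.closure (Set.range ρ) = ⊤
  invol : ∀ i, orderOf (ρ i) = 2
  comm : ∀ i j : Fin n, (i : ℕ) + 2 ≤ (j : ℕ) → (ρ i * ρ j) ^ 2 = 1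
  inter : ∀ I J : Set (Fin n), par ρ I ⊓ par ρ J = par ρ (I ∩ J)

/-- `Σ^φ = φ⁻¹ Σ φ`. -/
def cnj {Γ : Type*} [Group Γ] (φ : Γ) (S : Subgroup Γ) : Subgroup Γ :=
  S.map (MulAut.conj φ⁻¹).toMonoidHom

/-- Semisparse subgroups of the string C-group `Γ` with generators `ρ`. -/
structure Semisparse {Γ : Type*} [Group Γ] {n : ℕ} (ρ : Fin n → Γ) (S : Subgroup Γ) : Prop where
  one : ∀ (φ : Γ) (i : Fin n), ∀ γ ∈ par ρ {i}ᶜ, γ * ρ i ∉ cnj φ S
  two : ∀ (φ : Γ) (i k j : Fin n), i < k → k < j →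
    (par ρ {l | i < l} : Set Γ) ∩ ((par ρ {l | l < j} : Set Γ) * (cnj φ S : Set Γ)) ⊆
      (par ρ {k}ᶜ : Set Γ) * ((par ρ {l | i < l} ⊓ par ρ {l | l < j} : Subgroup Γ) : Set Γ)
        * (cnj φ S : Set Γ)
  three : ∀ (i : Fin n), (i : ℕ) + 1 < n →
    (par ρ {l | i < l} : Set Γ) ∩ ((par ρ {l | l ≤ i} : Set Γ) * (S : Set Γ)) ⊆ (S : Set Γ)

/-- The string C-group `Γ₀ = ⟨ρ₁, …, ρ_{n-1}⟩` with its ordered generators. -/
def lowGen {Γ : Type*} [Group Γ] {n : ℕ} (ρ : Fin (n+1) → Γ) (i : Fin n) :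
    par ρ {(0 : Fin (n+1))}ᶜ :=
  ⟨ρ i.succ, Subgroup.subset_closure ⟨i.succ, by simp, rfl⟩⟩

/-- The string C-group `Γ_{n-1} = ⟨ρ₀, …, ρ_{n-2}⟩` with its ordered generators. -/
def upGen {Γ : Type*} [Group Γ] {n : ℕ} (ρ : Fin (n+1) → Γ) (i : Fin n) :
    par ρ {Fin.last n}ᶜ :=
  ⟨ρ i.castSucc, Subgroup.subset_closure ⟨i.castSucc, by simp [Fin.ext_iff]; omega, rfl⟩⟩

section general

variable {Γ : Type*} [Group Γ]

lemma mem_cnj {φ x : Γ} {S : Subgroup Γ} : x ∈ cnj φ S ↔ φ * x * φ⁻¹ ∈ S := by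
  unfold cnj
  rw [Subgroup.mem_map]
  constructor
  · rintro ⟨y, hy, rfl⟩
    have : φ * ((MulAut.conj φ⁻¹).toMonoidHom y) * φ⁻¹ = y := by
      simp [mul_assoc]
    rw [this]; exact hy
  · intro h
    exact ⟨_, h, by simp [MulAut.conj_apply, mul_assoc]⟩

lemma cnj_cnj (φ ψ : Γ) (S : Subgroup Γ) : cnj φ (cnj ψ S) = cnj (ψ * φ) S := by
  ext x
  simp only [mem_cnj, mul_assoc, mul_inv_rev]

lemma cnj_one (S : Subgroup Γ) : cnj (1 : Γ) S = S := by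
  ext x
  simp [mem_cnj]

variable {n : ℕ}

/-- `Γ_{<m}` -/
def A (ρ : Fin n → Γ) (m : ℕ) : Subgroup Γ := par ρ {l | (l : ℕ) < m}

/-- `Γ_{≥m}` -/
def B (ρ : Fin n → Γ) (m : ℕ) : Subgroup Γ := par ρ {l | m ≤ (l : ℕ)}

variable {ρ : Fin n → Γ}

lemma par_mono {I J : Set (Fin n)} (h : I ⊆ J) : par ρ I ≤ par ρ J :=
  Subgroup.closure_mono (Set.image_mono h)

lemma rho_mem {I : Set (Fin n)} {i : Fin n} (h : i ∈ I) : ρ i ∈ par ρ I :=
  Subgroup.subset_closure ⟨i, h, rfl⟩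

lemma A_mono {i j : ℕ} (h : i ≤ j) : A ρ i ≤ A ρ j :=
  par_mono (fun l (hl : (l : ℕ) < i) => lt_of_lt_of_le hl h)

lemma B_anti {i j : ℕ} (h : i ≤ j) : B ρ j ≤ B ρ i :=
  par_mono (fun l (hl : j ≤ (l : ℕ)) => le_trans h hl)

lemma par_univ (h : IsStringC ρ) : par ρ Set.univ = ⊤ := by
  unfold par; rw [Set.image_univ]; exact h.gen

lemma par_empty : par ρ ∅ = ⊥ := by
  unfold par; simp

lemma A_top (h : IsStringC ρ) {m : ℕ} (hm : n ≤ m) : A ρ m = ⊤ := by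
  have : {l : Fin n | (l : ℕ) < m} = Set.univ := by
    ext l; have := l.2; simp; omega
  unfold A; rw [this]; exact par_univ h

lemma B_zero (h : IsStringC ρ) : B ρ 0 = ⊤ := by
  have : {l : Fin n | 0 ≤ (l : ℕ)} = Set.univ := by
    ext l; simp
  unfold B; rw [this]; exact par_univ h

lemma B_bot {m : ℕ} (hm : n ≤ m) : B ρ m = ⊥ := by
  have : {l : Fin n | m ≤ (l : ℕ)} = ∅ := by
    ext l; have := l.2; simp; omega
  unfold B; rw [this]; exact par_empty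

lemma AB_bot (h : IsStringC ρ) {m : ℕ} {x : Γ} (ha : x ∈ A ρ m) (hb : x ∈ B ρ m) : x = 1 := by
  have h1 : x ∈ A ρ m ⊓ B ρ m := ⟨ha, hb⟩
  unfold A B at h1
  rw [h.inter] at h1
  have : {l : Fin n | (l : ℕ) < m} ∩ {l : Fin n | m ≤ (l : ℕ)} = ∅ := by
    ext l; simp
  rw [this, par_empty] at h1
  exact Subgroup.mem_bot.1 h1

lemma rho_inv (h : IsStringC ρ) (i : Fin n) : (ρ i)⁻¹ = ρ i := by
  have h1 := pow_orderOf_eq_one (ρ i)
  rw [h.invol i] at h1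
  rw [inv_eq_iff_mul_eq_one, ← sq]
  exact h1

lemma rho_comm (h : IsStringC ρ) {i j : Fin n} (hij : (i : ℕ) + 2 ≤ j) :
    ρ i * ρ j = ρ j * ρ i := by
  have h1 := h.comm i j hij
  rw [sq] at h1
  have h2 : ρ i * ρ j = (ρ i * ρ j)⁻¹ := eq_inv_of_mul_eq_one_left h1
  rw [mul_inv_rev, rho_inv h, rho_inv h] at h2
  exact h2

lemma commAB (h : IsStringC ρ) {i : ℕ} {a b : Γ} (ha : a ∈ A ρ i) (hb : b ∈ B ρ (i + 1)) :
    a * b = b * a := by
  have : Commute a b := by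
    refine Subgroup.closure_induction (p := fun a _ => Commute a b) ?_ (Commute.one_left b)
      (fun x y _ _ hx hy => hx.mul_left hy) (fun x _ hx => hx.inv_left) ha
    rintro _ ⟨l, hl, rfl⟩
    refine Subgroup.closure_induction (p := fun b _ => Commute (ρ l) b) ?_
      (Commute.one_right _) (fun x y _ _ hx hy => hx.mul_right hy) (fun x _ hx => hx.inv_right) hb
    rintro _ ⟨l', hl', rfl⟩
    exact rho_comm h (by simp at hl hl'; omega)
  exact this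

lemma mem_G (h : IsStringC ρ) {k : Fin n} {g : Γ} (hg : g ∈ par ρ {k}ᶜ) :
    ∃ a ∈ A ρ k, ∃ b ∈ B ρ (k + 1), g = a * b := by
  refine Subgroup.closure_induction
    (p := fun g _ => ∃ a ∈ A ρ k, ∃ b ∈ B ρ (k + 1), g = a * b) ?_ ?_ ?_ ?_ hg
  · rintro _ ⟨l, hl, rfl⟩
    have hlk : l ≠ k := hl
    rcases lt_or_ge (l : ℕ) (k : ℕ) with h1 | h1
    · exact ⟨ρ l, rho_mem h1, 1, one_mem _, by simp⟩
    · have h2 : (k : ℕ) + 1 ≤ l := by
        have : (l : ℕ) ≠ k := fun h => hlk (Fin.ext h)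
        omega
      exact ⟨1, one_mem _, ρ l, rho_mem h2, by simp⟩
  · exact ⟨1, one_mem _, 1, one_mem _, by simp⟩
  · rintro x y _ _ ⟨a, ha, b, hb, rfl⟩ ⟨a', ha', b', hb', rfl⟩
    refine ⟨a * a', mul_mem ha ha', b * b', mul_mem hb hb', ?_⟩
    calc a * b * (a' * b') = a * (b * a') * b' := by group
      _ = a * (a' * b) * b' := by rw [commAB h ha' hb]
      _ = a * a' * (b * b') := by group
  · rintro x _ ⟨a, ha, b, hb, rfl⟩
    refine ⟨a⁻¹, inv_mem ha, b⁻¹, inv_mem hb, ?_⟩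
    rw [mul_inv_rev, commAB h (inv_mem ha) (inv_mem hb)]

lemma A_le_G {j : ℕ} {k : Fin n} (hj : j ≤ k) : A ρ j ≤ par ρ {k}ᶜ :=
  par_mono (fun l (hl : (l : ℕ) < j) => by
    simp only [Set.mem_compl_iff, Set.mem_singleton_iff]
    rintro rfl; omega)

lemma B_le_G {j : ℕ} {k : Fin n} (hj : (k : ℕ) < j) : B ρ j ≤ par ρ {k}ᶜ :=
  par_mono (fun l (hl : j ≤ (l : ℕ)) => by
    simp only [Set.mem_compl_iff, Set.mem_singleton_iff]
    rintro rfl; omega)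

/-- condition (1), for one subgroup -/
def One (ρ : Fin n → Γ) (S : Subgroup Γ) : Prop :=
  ∀ i : Fin n, ∀ γ ∈ par ρ {i}ᶜ, γ * ρ i ∉ S

/-- condition (2), for one subgroup -/
def Two (ρ : Fin n → Γ) (S : Subgroup Γ) : Prop :=
  ∀ (m j : ℕ) (k : Fin n), m ≤ k → (k : ℕ) < j → ∀ x ∈ B ρ m, ∀ δ ∈ A ρ j, δ * x ∈ S →
    ∃ γ ∈ par ρ {k}ᶜ, ∃ β ∈ B ρ m, β ∈ A ρ j ∧ β * γ * x ∈ S

/-- condition (3) in symmetric form -/
def Three (ρ : Fin n → Γ) (S : Subgroup Γ) : Prop :=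
  ∀ m : ℕ, ∀ a ∈ A ρ m, ∀ b ∈ B ρ m, a * b ∈ S → a ∈ S ∧ b ∈ S

/-- flags are determined by their faces -/
def FD (ρ : Fin n → Γ) (S : Subgroup Γ) : Prop :=
  ∀ g, (∀ l : Fin n, ∃ γ ∈ par ρ {l}ᶜ, γ * g ∈ S) → g ∈ S

/-- the factorisation property of `S ∩ Γ_{<j} Γ_{≥m}` -/
def Sp (ρ : Fin n → Γ) (S : Subgroup Γ) (m j : ℕ) : Prop :=
  ∀ a ∈ A ρ j, ∀ b ∈ B ρ m, a * b ∈ S →
    ∃ a' ∈ A ρ j, ∃ b' ∈ B ρ m, a' ∈ S ∧ b' ∈ S ∧ a * b = a' * b'

lemma stepL (h : IsStringC ρ) {S : Subgroup Γ} (h3 : Three ρ S) (g : Γ) :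
    ∀ m : ℕ, m ≤ n → (∀ l : Fin n, (l : ℕ) < m → ∃ γ ∈ par ρ {l}ᶜ, γ * g ∈ S) →
      ∃ b ∈ B ρ m, b * g ∈ S := by
  intro m
  induction m with
  | zero =>
    intro _ _
    refine ⟨g⁻¹, ?_, by simp⟩
    rw [B_zero h]; trivial
  | succ m ih =>
    intro hm hl
    obtain ⟨b, hb, hbg⟩ := ih (by omega) (fun l hlm => hl l (by omega))
    obtain ⟨γ, hγ, hγg⟩ := hl ⟨m, by omega⟩ (by simp)
    obtain ⟨e1, he1, e2, he2, rfl⟩ := mem_G h hγ
    simp only at he1 he2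
    have h4 : e1 * (e2 * b⁻¹) ∈ S := by
      have := mul_mem hγg (inv_mem hbg)
      convert this using 1
      group
    have h5 := (h3 m e1 he1 (e2 * b⁻¹) (mul_mem (B_anti (Nat.le_succ m) he2) (inv_mem hb)) h4).2
    refine ⟨e2, he2, ?_⟩
    have := mul_mem h5 hbg
    convert this using 1
    group

lemma stepU (h : IsStringC ρ) {S : Subgroup Γ} (h3 : Three ρ S) (g : Γ) :
    ∀ d m : ℕ, m + d = n → (∀ l : Fin n, m ≤ (l : ℕ) → ∃ γ ∈ par ρ {l}ᶜ, γ * g ∈ S) →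
      ∃ a ∈ A ρ m, a * g ∈ S := by
  intro d
  induction d with
  | zero =>
    intro m hm _
    refine ⟨g⁻¹, ?_, by simp⟩
    rw [A_top h (by omega)]; trivial
  | succ d ih =>
    intro m hm hl
    obtain ⟨a, ha, hag⟩ := ih (m + 1) (by omega) (fun l hlm => hl l (by omega))
    obtain ⟨γ, hγ, hγg⟩ := hl ⟨m, by omega⟩ (by simp)
    obtain ⟨e1, he1, e2, he2, rfl⟩ := mem_G h hγ
    simp only at he1 he2
    have h4 : (a * e1⁻¹) * e2⁻¹ ∈ S := by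
      have := mul_mem hag (inv_mem hγg)
      rw [commAB h he1 he2] at this
      convert this using 1
      group
    have h5 := (h3 (m + 1) (a * e1⁻¹) (mul_mem ha (inv_mem (A_mono (Nat.le_succ m) he1)))
      e2⁻¹ (inv_mem he2) h4).1
    refine ⟨e1, he1, ?_⟩
    have := mul_mem (inv_mem h5) hag
    convert this using 1
    group

lemma Three.fd (h : IsStringC ρ) {S : Subgroup Γ} (h3 : Three ρ S) : FD ρ S := by
  intro g hg
  obtain ⟨b, hb, hbg⟩ := stepL h h3 g n le_rfl (fun l _ => hg l)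
  rw [B_bot le_rfl, Subgroup.mem_bot] at hb
  simpa [hb] using hbg

lemma FD.three {S : Subgroup Γ} (h3 : FD ρ S) : Three ρ S := by
  intro m a ha b hb hab
  have hbS : b ∈ S := by
    refine h3 b (fun l => ?_)
    rcases lt_or_ge (l : ℕ) m with h1 | h1
    · exact ⟨b⁻¹, inv_mem (B_le_G h1 hb), by simp⟩
    · exact ⟨a, A_le_G h1 ha, hab⟩
  refine ⟨?_, hbS⟩
  have := mul_mem hab (inv_mem hbS)
  simpa using this

lemma step2 (h : IsStringC ρ) {S : Subgroup Γ} (h1 : ∀ φ, One ρ (cnj φ S)) (h2 : Two ρ S)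
    (h3 : Three ρ S) (k : Fin n) : Three ρ (cnj (ρ k) S) := by
  apply FD.three
  intro g hg
  rw [mem_cnj]
  set g' := ρ k * g * (ρ k)⁻¹ with hg'
  have hne : ∀ l : Fin n, l ≠ k → ∃ γ ∈ par ρ {l}ᶜ, γ * g' ∈ S := by
    intro l hl
    obtain ⟨γ, hγ, hγg⟩ := hg l
    rw [mem_cnj] at hγg
    have hk : ρ k ∈ par ρ {l}ᶜ := rho_mem (fun h => hl h.symm)
    refine ⟨ρ k * γ * (ρ k)⁻¹, mul_mem (mul_mem hk hγ) (inv_mem hk), ?_⟩
    convert hγg using 1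
    rw [hg']; group
  obtain ⟨b, hb, hbg⟩ := stepL h h3 g' k k.2.le (fun l hl => hne l (fun h => by
    rw [h] at hl; exact lt_irrefl _ hl))
  obtain ⟨a, ha, hag⟩ := stepU h h3 g' (n - (k + 1)) (k + 1) (by have := k.2; omega)
    (fun l hl => hne l (fun h => by rw [h] at hl; omega))
  have hab : a * b⁻¹ ∈ S := by
    have := mul_mem hag (inv_mem hbg)
    convert this using 1
    group
  obtain ⟨γ, hγ, β, hβB, hβA, hβ⟩ := h2 k (k + 1) k le_rfl (Nat.lt_succ_self _) b⁻¹ (inv_mem hb)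
    a ha hab
  have hβ2 : β * γ * g' ∈ S := by
    have := mul_mem hβ hbg
    convert this using 1
    group
  have hβmem : β ∈ par ρ {k} := by
    have h4 : β ∈ B ρ k ⊓ A ρ (k + 1) := ⟨hβB, hβA⟩
    unfold A B at h4
    rw [h.inter] at h4
    have : {l : Fin n | (k : ℕ) ≤ (l : ℕ)} ∩ {l : Fin n | (l : ℕ) < k + 1} = {k} := by
      ext l; simp [Fin.ext_iff]; omega
    rwa [this] at h4
  have hβcase : β = 1 ∨ β = ρ k := by
    refine Subgroup.closure_induction (p := fun β _ => β = 1 ∨ β = ρ k) ?_ (Or.inl rfl) ?_ ?_ hβmem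
    · rintro _ ⟨l, hl, rfl⟩
      rw [Set.mem_singleton_iff] at hl
      rw [hl]; exact Or.inr rfl
    · have hsq : ρ k * ρ k = 1 := by
        nth_rw 1 [← rho_inv h k]
        simp
      rintro x y _ _ (rfl | rfl) (rfl | rfl) <;> simp [hsq]
    · rintro x _ (rfl | rfl)
      · simp
      · right; exact rho_inv h k
  rcases hβcase with rfl | rfl
  · refine h3.fd h g' (fun l => ?_)
    by_cases hl : l = k
    · subst hl
      exact ⟨γ, hγ, by simpa using hβ2⟩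
    · exact hne l hl
  · exfalso
    obtain ⟨γ0, hγ0, hγ0g⟩ := hg k
    rw [mem_cnj] at hγ0g
    apply h1 (ρ k * γ) k (γ⁻¹ * γ0) (mul_mem (inv_mem hγ) hγ0)
    rw [mem_cnj]
    have := mul_mem hγ0g (inv_mem hβ2)
    convert this using 1
    have e1 : ρ k * γ * (γ⁻¹ * γ0 * ρ k) * (ρ k * γ)⁻¹ = ρ k * γ0 * ρ k * (γ⁻¹ * (ρ k)⁻¹) := by
      group
    rw [e1, hg']
    have e2 : ρ k * (γ0 * g) * (ρ k)⁻¹ * (ρ k * γ * (ρ k * g * (ρ k)⁻¹))⁻¹
      = ρ k * γ0 * (ρ k)⁻¹ * (γ⁻¹ * (ρ k)⁻¹) := by group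
    rw [e2, rho_inv h]

lemma three_all (h : IsStringC ρ) {S : Subgroup Γ} (h1 : ∀ φ, One ρ (cnj φ S))
    (h2 : ∀ φ, Two ρ (cnj φ S)) (h3 : Three ρ S) (φ : Γ) : Three ρ (cnj φ S) := by
  have hφ : φ ∈ Subgroup.closure (Set.range ρ) := by rw [h.gen]; trivial
  refine Subgroup.closure_induction_right (p := fun φ _ => Three ρ (cnj φ S)) ?_ ?_ ?_ hφ
  · rw [cnj_one]; exact h3
  · rintro x _ _ ⟨k, rfl⟩ hx
    rw [← cnj_cnj]
    refine step2 h (fun ψ => ?_) (h2 x) hx k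
    rw [cnj_cnj]; exact h1 _
  · rintro x _ _ ⟨k, rfl⟩ hx
    rw [rho_inv h, ← cnj_cnj]
    refine step2 h (fun ψ => ?_) (h2 x) hx k
    rw [cnj_cnj]; exact h1 _

lemma step3 (h : IsStringC ρ) (m : ℕ) :
    ∀ d : ℕ, ∀ S : Subgroup Γ, (∀ φ, Two ρ (cnj φ S)) → (∀ φ, Three ρ (cnj φ S)) →
      Sp ρ S m (m + d) := by
  intro d
  induction d with
  | zero =>
    intro S _ h3 a ha b hb hab
    have h4 := h3 1
    rw [cnj_one] at h4
    obtain ⟨h5, h6⟩ := h4 m a ha b hb hab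
    exact ⟨a, ha, b, hb, h5, h6, rfl⟩
  | succ d ih =>
    intro S h2 h3 a ha x hx hax
    rcases le_or_gt n (m + d) with hn | hn
    · refine ⟨a * x, ?_, 1, one_mem _, hax, one_mem _, by simp⟩
      rw [A_top h (by omega)]; trivial
    have h2' := h2 1
    rw [cnj_one] at h2'
    obtain ⟨g, hg, β0, hβB, hβA, hβ⟩ := h2' m (m + (d + 1)) ⟨m + d, hn⟩ (by simp) (by simp)
      x hx a ha hax
    obtain ⟨α1, hα1, α2, hα2, rfl⟩ := mem_G h hg
    simp only at hα1 hα2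
    have hα2B : α2 ∈ B ρ m := B_anti (by omega) hα2
    have hα1A : α1 ∈ A ρ (m + (d + 1)) := A_mono (by omega) hα1
    -- the conjugate `Σ' = β0⁻¹ Σ β0`
    have hs : α1 * (α2 * x * β0) ∈ cnj β0 S := by
      rw [mem_cnj]
      convert hβ using 1
      group
    have ih' := ih (cnj β0 S) (fun φ => by rw [cnj_cnj]; exact h2 _)
      (fun φ => by rw [cnj_cnj]; exact h3 _)
    obtain ⟨a', ha', b', hb', ha'S, hb'S, hab'⟩ := ih' α1 hα1 (α2 * x * β0)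
      (mul_mem (mul_mem hα2B hx) hβB) hs
    -- `c' = α1⁻¹ a' = y b'⁻¹`
    have hc1 : α1⁻¹ * a' ∈ A ρ (m + d) := mul_mem (inv_mem hα1) ha'
    have hceq : α1⁻¹ * a' = α2 * x * β0 * b'⁻¹ := by
      have : a' = α1 * (α2 * x * β0) * b'⁻¹ := by rw [hab']; group
      rw [this]; group
    have hc2 : α1⁻¹ * a' ∈ B ρ m := by
      rw [hceq]
      exact mul_mem (mul_mem (mul_mem hα2B hx) hβB) (inv_mem hb')
    set c := α1⁻¹ * a' with hc
    rw [mem_cnj] at hb'S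
    -- `x = α2⁻¹ β' τ'`
    set β' := c * β0⁻¹ with hβ'
    set τ' := β0 * b' * β0⁻¹ with hτ'
    have hxeq : x = α2⁻¹ * β' * τ' := by
      rw [hβ', hτ', hceq]; group
    have hβ'A : β' ∈ A ρ (m + (d + 1)) := mul_mem (A_mono (by omega) hc1) (inv_mem hβA)
    have hβ'B : β' ∈ B ρ m := mul_mem hc2 (inv_mem hβB)
    have hτB : τ' ∈ B ρ m := mul_mem (mul_mem hβB hb') (inv_mem hβB)
    have h5 : a * α2⁻¹ * β' ∈ S := by
      have := mul_mem hax (inv_mem hb'S)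
      convert this using 1
      rw [hxeq]; group
    have h6 : (β' * a) * α2⁻¹ ∈ cnj β'⁻¹ S := by
      rw [mem_cnj]
      convert h5 using 1
      group
    have h7 := (h3 β'⁻¹ (m + d + 1) (β' * a) (mul_mem hβ'A ha) α2⁻¹ (inv_mem hα2) h6).2
    rw [mem_cnj, inv_inv] at h7
    set τ'' := β'⁻¹ * α2⁻¹ * β' with hτ''
    have hτ''B : τ'' ∈ B ρ m := mul_mem (mul_mem (inv_mem hβ'B) (inv_mem hα2B)) hβ'B
    have hxeq2 : x = β' * (τ'' * τ') := by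
      rw [hτ'']
      nth_rw 1 [hxeq]
      group
    refine ⟨a * β', mul_mem ha hβ'A, τ'' * τ', mul_mem hτ''B hτB, ?_, mul_mem h7 hb'S, ?_⟩
    · have := mul_mem hax (inv_mem (mul_mem h7 hb'S))
      convert this using 1
      nth_rw 1 [hxeq2]
      group
    · rw [hxeq2]
      group

lemma Semisparse.w (h : IsStringC ρ) {S : Subgroup Γ} (hS : Semisparse ρ S) :
    (∀ φ, One ρ (cnj φ S)) ∧ (∀ φ, Two ρ (cnj φ S)) ∧ Three ρ S := by
  refine ⟨fun φ i γ hγ => hS.one φ i γ hγ, fun φ m j k hmk hkj x hx δ hδ hδx => ?_, ?_⟩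
  · rcases Nat.eq_zero_or_pos m with hm | hm
    · subst hm
      refine ⟨1, one_mem _, δ, ?_, hδ, by simpa using hδx⟩
      rw [B_zero h]; trivial
    rcases le_or_gt n j with hj | hj
    · refine ⟨1, one_mem _, x⁻¹, inv_mem hx, ?_, by simp⟩
      rw [A_top h hj]; trivial
    have hk := k.2
    have h4 := hS.two φ ⟨m - 1, by omega⟩ k ⟨j, hj⟩ (by rw [Fin.lt_def]; simp; omega)
      (by rw [Fin.lt_def]; simpa using hkj)
    have hsetA : {l : Fin n | l < ⟨j, hj⟩} = {l : Fin n | (l : ℕ) < j} := by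
      ext l; simp [Fin.lt_def]
    have hsetB : {l : Fin n | (⟨m - 1, by omega⟩ : Fin n) < l} = {l : Fin n | m ≤ (l : ℕ)} := by
      ext l; simp [Fin.lt_def]; omega
    rw [hsetA, hsetB] at h4
    have h5 : x ∈ (B ρ m : Set Γ) ∩ ((A ρ j : Set Γ) * (cnj φ S : Set Γ)) :=
      ⟨hx, Set.mem_mul.2 ⟨δ⁻¹, inv_mem hδ, δ * x, hδx, by group⟩⟩
    have h6 := h4 h5
    rw [Set.mem_mul] at h6
    obtain ⟨y, hy, s, hs, hys⟩ := h6
    rw [Set.mem_mul] at hy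
    obtain ⟨γ, hγ, β, hβ, hγβ⟩ := hy
    refine ⟨γ⁻¹, inv_mem hγ, β⁻¹, inv_mem hβ.1, inv_mem hβ.2, ?_⟩
    have : β⁻¹ * γ⁻¹ * x = s := by
      rw [← hys, ← hγβ]; group
    rw [this]; exact hs
  · intro m a ha b hb hab
    have hbS : b ∈ S := by
      rcases Nat.eq_zero_or_pos m with hm | hm
      · subst hm
        have : a = 1 := AB_bot h ha (by rw [B_zero h]; trivial)
        simpa [this] using hab
      rcases le_or_gt n m with hj | hj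
      · rw [B_bot hj, Subgroup.mem_bot] at hb
        rw [hb]; exact one_mem _
      have h4 := hS.three ⟨m - 1, by omega⟩ (by simp; omega)
      have hsetA : {l : Fin n | l ≤ ⟨m - 1, by omega⟩} = {l : Fin n | (l : ℕ) < m} := by
        ext l; simp [Fin.le_def]; omega
      have hsetB : {l : Fin n | (⟨m - 1, by omega⟩ : Fin n) < l} = {l : Fin n | m ≤ (l : ℕ)} := by
        ext l; simp [Fin.lt_def]; omega
      rw [hsetA, hsetB] at h4
      exact h4 ⟨hb, Set.mem_mul.2 ⟨a⁻¹, inv_mem ha, a * b, hab, by group⟩⟩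
    refine ⟨?_, hbS⟩
    have := mul_mem hab (inv_mem hbS)
    simpa using this

/-- Theorem A -/
lemma Semisparse.sp (h : IsStringC ρ) {S : Subgroup Γ} (hS : Semisparse ρ S) (m j : ℕ)
    (hmj : m ≤ j) : Sp ρ S m j := by
  obtain ⟨h1, h2, h3⟩ := hS.w h
  obtain ⟨d, rfl⟩ := Nat.exists_eq_add_of_le hmj
  exact step3 h m d S h2 (three_all h h1 h2 h3)

/-- Theorem B -/
lemma semisparse_of (h : IsStringC ρ) {S : Subgroup Γ} (h1 : ∀ φ, One ρ (cnj φ S))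
    (h2 : ∀ φ, ∀ m j : ℕ, m ≤ j → Sp ρ (cnj φ S) m j) : Semisparse ρ S := by
  refine ⟨fun φ i γ hγ => h1 φ i γ hγ, ?_, ?_⟩
  · rintro φ i k j hik hkj x ⟨hx, hx2⟩
    rw [Set.mem_mul] at hx2
    obtain ⟨δ, hδ, s, hs, rfl⟩ := hx2
    have hsetA : {l : Fin n | l < j} = {l : Fin n | (l : ℕ) < j} := rfl
    have hsetB : {l : Fin n | i < l} = {l : Fin n | (i : ℕ) + 1 ≤ (l : ℕ)} := by
      ext l; rw [Set.mem_ofPred_eq, Set.mem_ofPred_eq, Fin.lt_def]; omega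
    rw [hsetB] at hx ⊢
    rw [hsetA] at hδ ⊢
    have hδ' : δ ∈ A ρ j := hδ
    have hx' : δ * s ∈ B ρ (i + 1) := hx
    obtain ⟨a', ha', b', hb', haS, hbS, hab⟩ := h2 φ (i + 1) j (by
      rw [Fin.lt_def] at hik hkj; omega) δ⁻¹ (inv_mem hδ') (δ * s) hx' (by simpa using hs)
    have hab' : s = a' * b' := by rw [← hab]; group
    have hba : δ * a' = δ * s * b'⁻¹ := by rw [hab']; group
    have hm1 : δ * a' ∈ B ρ (i + 1) := by
      rw [hba]; exact mul_mem hx' (inv_mem hb')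
    have hm2 : δ * a' ∈ A ρ j := mul_mem hδ' ha'
    exact Set.mem_mul.2 ⟨δ * a', Set.mem_mul.2 ⟨1, one_mem (par ρ {k}ᶜ), δ * a',
      Subgroup.mem_inf.2 ⟨hm1, hm2⟩, by simp⟩, b', hbS, by rw [hab']; group⟩
  · rintro i hi x ⟨hx, hx2⟩
    rw [Set.mem_mul] at hx2
    obtain ⟨δ, hδ, s, hs, rfl⟩ := hx2
    have hsetA : {l : Fin n | l ≤ i} = {l : Fin n | (l : ℕ) < i + 1} := by
      ext l; rw [Set.mem_ofPred_eq, Set.mem_ofPred_eq, Fin.le_def]; omega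
    have hsetB : {l : Fin n | i < l} = {l : Fin n | (i : ℕ) + 1 ≤ (l : ℕ)} := by
      ext l; rw [Set.mem_ofPred_eq, Set.mem_ofPred_eq, Fin.lt_def]; omega
    rw [hsetB] at hx
    rw [hsetA] at hδ
    have hδ' : δ ∈ A ρ (i + 1) := hδ
    have hx' : δ * s ∈ B ρ (i + 1) := hx
    have h3 := h2 1 (i + 1) (i + 1) le_rfl
    rw [cnj_one] at h3
    obtain ⟨a', ha', b', hb', haS, hbS, hab⟩ := h3 δ⁻¹ (inv_mem hδ') (δ * s) hx'
      (by simpa using hs)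
    have hab' : s = a' * b' := by rw [← hab]; group
    have hba : δ * a' = δ * s * b'⁻¹ := by rw [hab']; group
    have h4 : δ * s * b'⁻¹ = 1 := by
      refine AB_bot h (m := i + 1) ?_ (mul_mem hx' (inv_mem hb'))
      rw [← hba]; exact mul_mem hδ' ha'
    have h5 : δ * s = b' := by
      rw [mul_inv_eq_one] at h4; exact h4
    show δ * s ∈ S
    rw [h5]; exact hbS

end general

section sub

variable {Γ : Type*} [Group Γ] {n m : ℕ} {ρ : Fin n → Γ} {H : Subgroup Γ} {e : Fin m → Fin n}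
  {τ : Fin m → H}

lemma mem_par_sub (hτ : ∀ i, (τ i : Γ) = ρ (e i)) (I : Set (Fin m)) (x : H) :
    x ∈ par τ I ↔ (x : Γ) ∈ par ρ (e '' I) := by
  have h1 : (par τ I).map H.subtype = par ρ (e '' I) := by
    unfold par
    rw [MonoidHom.map_closure, Set.image_image, Set.image_image]
    congr 1
    apply Set.image_congr
    intro i _
    exact hτ i
  rw [← h1, Subgroup.mem_map]
  constructor
  · intro hx
    exact ⟨x, hx, rfl⟩
  · rintro ⟨y, hy, hyx⟩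
    have : y = x := Subtype.ext hyx
    rwa [← this]

lemma isStringC_sub (h : IsStringC ρ) (hτ : ∀ i, (τ i : Γ) = ρ (e i)) (he : Function.Injective e)
    (he2 : ∀ i j : Fin m, (i : ℕ) + 2 ≤ j → (e i : ℕ) + 2 ≤ e j)
    (hH : H = par ρ (Set.range e)) : IsStringC τ := by
  refine ⟨?_, ?_, ?_, ?_⟩
  · rw [eq_top_iff]
    intro x _
    have h1 := mem_par_sub hτ Set.univ x
    unfold par at h1
    rw [Set.image_univ] at h1
    rw [h1, Set.image_univ]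
    have h2 : ∀ y ∈ H, y ∈ par ρ (Set.range e) := by
      intro y hy
      rw [hH] at hy
      exact hy
    exact h2 _ x.2
  · intro i
    rw [← h.invol (e i), ← hτ i, Subgroup.orderOf_coe]
  · intro i j hij
    apply Subtype.ext
    push_cast
    rw [hτ, hτ]
    exact h.comm _ _ (he2 i j hij)
  · intro I J
    ext x
    rw [Subgroup.mem_inf, mem_par_sub hτ, mem_par_sub hτ, mem_par_sub hτ, Set.image_inter he,
      ← h.inter, Subgroup.mem_inf]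

end sub

section final

variable {Γ : Type*} [Group Γ] {n : ℕ} {ρ : Fin (n + 2) → Γ}

lemma lowGen_C (h : IsStringC ρ) : IsStringC (lowGen ρ) := by
  refine isStringC_sub (e := Fin.succ) h (fun i => rfl) (Fin.succ_injective _) ?_ ?_
  · intro i j hij
    simp only [Fin.val_succ]
    omega
  · congr 1
    ext l
    rw [Set.mem_compl_iff, Set.mem_singleton_iff, Set.mem_range, Fin.exists_succ_eq]

lemma upGen_C (h : IsStringC ρ) : IsStringC (upGen ρ) := by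
  refine isStringC_sub (e := Fin.castSucc) h (fun i => rfl) (Fin.castSucc_injective _) ?_ ?_
  · intro i j hij
    simpa using hij
  · congr 1
    ext l
    rw [Set.mem_compl_iff, Set.mem_singleton_iff, Set.mem_range, Fin.exists_castSucc_eq]

lemma B_one : B ρ 1 = par ρ {(0 : Fin (n + 2))}ᶜ := by
  unfold B
  congr 1
  ext l
  rw [Set.mem_ofPred_eq, Set.mem_compl_iff, Set.mem_singleton_iff, Fin.ext_iff, Fin.val_zero]
  omega

lemma A_last : A ρ (n + 1) = par ρ {Fin.last (n + 1)}ᶜ := by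
  unfold A
  congr 1
  ext l
  have := l.2
  rw [Set.mem_ofPred_eq, Set.mem_compl_iff, Set.mem_singleton_iff, Fin.ext_iff, Fin.val_last]
  omega

lemma mem_A_low (h : IsStringC ρ) (j : ℕ) (x : par ρ {(0 : Fin (n + 2))}ᶜ) :
    x ∈ A (lowGen ρ) j ↔ (x : Γ) ∈ A ρ (j + 1) := by
  unfold A
  rw [mem_par_sub (ρ := ρ) (e := Fin.succ) (fun i => rfl)]
  have h1 : Fin.succ '' {l : Fin (n + 1) | (l : ℕ) < j} =
      {l : Fin (n + 2) | (l : ℕ) < j + 1} ∩ {(0 : Fin (n + 2))}ᶜ := by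
    ext l
    constructor
    · rintro ⟨k, hk, rfl⟩
      rw [Set.mem_ofPred_eq] at hk
      refine ⟨?_, by simp⟩
      rw [Set.mem_ofPred_eq, Fin.val_succ]; omega
    · rintro ⟨hl, hl0⟩
      rw [Set.mem_ofPred_eq] at hl
      rw [Set.mem_compl_iff, Set.mem_singleton_iff] at hl0
      obtain ⟨k, rfl⟩ := Fin.exists_succ_eq.2 hl0
      refine ⟨k, ?_, rfl⟩
      rw [Fin.val_succ] at hl
      rw [Set.mem_ofPred_eq]; omega
  rw [h1, ← h.inter, Subgroup.mem_inf]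
  exact and_iff_left x.2

lemma mem_B_low (j : ℕ) (x : par ρ {(0 : Fin (n + 2))}ᶜ) :
    x ∈ B (lowGen ρ) j ↔ (x : Γ) ∈ B ρ (j + 1) := by
  unfold B
  rw [mem_par_sub (ρ := ρ) (e := Fin.succ) (fun i => rfl)]
  have h1 : Fin.succ '' {l : Fin (n + 1) | j ≤ (l : ℕ)} = {l : Fin (n + 2) | j + 1 ≤ (l : ℕ)} := by
    ext l
    constructor
    · rintro ⟨k, hk, rfl⟩
      rw [Set.mem_ofPred_eq] at hk
      rw [Set.mem_ofPred_eq, Fin.val_succ]; omega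
    · intro hl
      rw [Set.mem_ofPred_eq] at hl
      have hl0 : l ≠ 0 := by rintro rfl; simp at hl
      obtain ⟨k, rfl⟩ := Fin.exists_succ_eq.2 hl0
      refine ⟨k, ?_, rfl⟩
      rw [Fin.val_succ] at hl
      rw [Set.mem_ofPred_eq]; omega
  rw [h1]

lemma mem_A_up (j : ℕ) (hj : j ≤ n + 1) (x : par ρ {Fin.last (n + 1)}ᶜ) :
    x ∈ A (upGen ρ) j ↔ (x : Γ) ∈ A ρ j := by
  unfold A
  rw [mem_par_sub (ρ := ρ) (e := Fin.castSucc) (fun i => rfl)]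
  have h1 : Fin.castSucc '' {l : Fin (n + 1) | (l : ℕ) < j} = {l : Fin (n + 2) | (l : ℕ) < j} := by
    ext l
    constructor
    · rintro ⟨k, hk, rfl⟩
      exact hk
    · intro hl
      rw [Set.mem_ofPred_eq] at hl
      have hl0 : l ≠ Fin.last (n + 1) := by
        rintro rfl; simp at hl; omega
      obtain ⟨k, rfl⟩ := Fin.exists_castSucc_eq.2 hl0
      exact ⟨k, hl, rfl⟩
  rw [h1]

lemma mem_B_up (h : IsStringC ρ) (j : ℕ) (x : par ρ {Fin.last (n + 1)}ᶜ) :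
    x ∈ B (upGen ρ) j ↔ (x : Γ) ∈ B ρ j := by
  unfold B
  rw [mem_par_sub (ρ := ρ) (e := Fin.castSucc) (fun i => rfl)]
  have h1 : Fin.castSucc '' {l : Fin (n + 1) | j ≤ (l : ℕ)} =
      {l : Fin (n + 2) | j ≤ (l : ℕ)} ∩ {Fin.last (n + 1)}ᶜ := by
    ext l
    constructor
    · rintro ⟨k, hk, rfl⟩
      exact ⟨hk, by
        rw [Set.mem_compl_iff, Set.mem_singleton_iff]
        exact Fin.castSucc_ne_last k⟩
    · rintro ⟨hl, hl0⟩
      rw [Set.mem_compl_iff, Set.mem_singleton_iff] at hl0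
      obtain ⟨k, rfl⟩ := Fin.exists_castSucc_eq.2 hl0
      exact ⟨k, hl, rfl⟩
  rw [h1, ← h.inter, Subgroup.mem_inf]
  exact and_iff_left x.2

/-- (C0) -/
lemma c0 (h : IsStringC ρ) {S : Subgroup Γ}
    (h0 : Semisparse (lowGen ρ) (S.subgroupOf (par ρ {(0 : Fin (n+2))}ᶜ))) {m j : ℕ} (hm : 1 ≤ m)
    (hmj : m ≤ j) {a b : Γ} (ha : a ∈ A ρ j) (ha1 : a ∈ B ρ 1) (hb : b ∈ B ρ m)
    (hab : a * b ∈ S) : ∃ a' ∈ A ρ j, a' ∈ B ρ 1 ∧ a' ∈ S ∧ ∃ b' ∈ B ρ m, b' ∈ S ∧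
      a * b = a' * b' := by
  have h1 := h0.sp (lowGen_C h) (m - 1) (j - 1) (by omega)
  rw [B_one] at ha1
  have hb1 : b ∈ par ρ {(0 : Fin (n + 2))}ᶜ := by
    rw [← B_one]; exact B_anti hm hb
  obtain ⟨a', ha', b', hb', haS, hbS, hab'⟩ := h1 ⟨a, ha1⟩
    ((mem_A_low h _ _).2 (by rw [Nat.sub_add_cancel (by omega)]; exact ha)) ⟨b, hb1⟩
    ((mem_B_low _ _).2 (by rw [Nat.sub_add_cancel hm]; exact hb))
    (by rw [Subgroup.mem_subgroupOf]; exact hab)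
  rw [mem_A_low h, Nat.sub_add_cancel (by omega)] at ha'
  rw [mem_B_low, Nat.sub_add_cancel hm] at hb'
  rw [Subgroup.mem_subgroupOf] at haS hbS
  refine ⟨a', ha', ?_, haS, b', hb', hbS, ?_⟩
  · rw [B_one]; exact a'.2
  · exact congrArg Subtype.val hab'

/-- (C1) -/
lemma c1 (h : IsStringC ρ) {S : Subgroup Γ}
    (h0 : Semisparse (upGen ρ) (S.subgroupOf (par ρ {Fin.last (n+1)}ᶜ))) {m j : ℕ}
    (hj : j ≤ n + 1) (hmj : m ≤ j) {a b : Γ} (ha : a ∈ A ρ j) (hb : b ∈ B ρ m)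
    (hb1 : b ∈ A ρ (n + 1)) (hab : a * b ∈ S) : ∃ a' ∈ A ρ j, a' ∈ S ∧ ∃ b' ∈ B ρ m,
      b' ∈ A ρ (n + 1) ∧ b' ∈ S ∧ a * b = a' * b' := by
  have h1 := h0.sp (upGen_C h) m j hmj
  rw [A_last] at hb1
  have ha1 : a ∈ par ρ {Fin.last (n + 1)}ᶜ := by
    rw [← A_last]; exact A_mono hj ha
  obtain ⟨a', ha', b', hb', haS, hbS, hab'⟩ := h1 ⟨a, ha1⟩
    ((mem_A_up _ hj _).2 ha) ⟨b, hb1⟩ ((mem_B_up h _ _).2 hb)
    (by rw [Subgroup.mem_subgroupOf]; exact hab)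
  rw [mem_A_up _ hj] at ha'
  rw [mem_B_up h] at hb'
  rw [Subgroup.mem_subgroupOf] at haS hbS
  refine ⟨a', ha', haS, b', hb', ?_, hbS, ?_⟩
  · rw [A_last]; exact b'.2
  · exact congrArg Subtype.val hab'

/-- Theorem C, factorisation part, for one conjugate -/
lemma sp_all (h : IsStringC ρ) {S : Subgroup Γ}
    (h0 : Semisparse (lowGen ρ) (S.subgroupOf (par ρ {(0 : Fin (n+2))}ᶜ)))
    (h1 : Semisparse (upGen ρ) (S.subgroupOf (par ρ {Fin.last (n+1)}ᶜ)))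
    (h2 : (S : Set Γ) ∩ ((par ρ {(0 : Fin (n+2))}ᶜ : Set Γ) * (par ρ {Fin.last (n+1)}ᶜ : Set Γ))
      = ((S ⊓ par ρ {(0 : Fin (n+2))}ᶜ : Subgroup Γ) : Set Γ)
        * ((S ⊓ par ρ {Fin.last (n+1)}ᶜ : Subgroup Γ) : Set Γ))
    (m j : ℕ) (hmj : m ≤ j) : Sp ρ S m j := by
  intro x hx y hy hxy
  rcases Nat.eq_zero_or_pos m with hm | hm
  · subst hm
    refine ⟨1, one_mem _, x * y, ?_, one_mem _, hxy, by simp⟩
    rw [B_zero h]; trivial
  rcases le_or_gt (n + 2) j with hj | hj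
  · refine ⟨x * y, ?_, 1, one_mem _, hxy, one_mem _, by simp⟩
    rw [A_top h hj]; trivial
  -- `(*)`
  have hstar : ∀ x ∈ A ρ (n + 1), ∀ y ∈ B ρ 1, x * y ∈ S → ∃ b ∈ A ρ (n + 1), b ∈ S ∧
      ∃ a ∈ B ρ 1, a ∈ S ∧ x * y = b * a := by
    intro x hx y hy hxy
    have h3 : y⁻¹ * x⁻¹ ∈ (S : Set Γ) ∩ ((par ρ {(0 : Fin (n+2))}ᶜ : Set Γ)
        * (par ρ {Fin.last (n+1)}ᶜ : Set Γ)) := by
      refine ⟨?_, Set.mem_mul.2 ⟨y⁻¹, inv_mem (by rw [← B_one]; exact hy), x⁻¹,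
        inv_mem (by rw [← A_last]; exact hx), rfl⟩⟩
      have := inv_mem hxy
      rw [mul_inv_rev] at this
      exact this
    rw [h2, Set.mem_mul] at h3
    obtain ⟨u, hu, v, hv, huv⟩ := h3
    have hu' := Subgroup.mem_inf.1 hu
    have hv' := Subgroup.mem_inf.1 hv
    rw [← B_one] at hu'
    rw [← A_last] at hv'
    refine ⟨v⁻¹, inv_mem hv'.2, inv_mem hv'.1, u⁻¹, inv_mem hu'.2, inv_mem hu'.1, ?_⟩
    rw [← mul_inv_rev, huv]; group
  -- `S_{1,j}`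
  have h1j : ∀ x ∈ A ρ j, ∀ y ∈ B ρ 1, x * y ∈ S → ∃ b ∈ A ρ j, b ∈ S ∧
      ∃ a ∈ B ρ 1, a ∈ S ∧ x * y = b * a := by
    intro x hx y hy hxy
    obtain ⟨b, hb, hbS, a, ha, haS, hba⟩ := hstar x (A_mono (by omega) hx) y hy hxy
    have hc1 : x⁻¹ * b ∈ A ρ (n + 1) := mul_mem (inv_mem (A_mono (by omega) hx)) hb
    have hceq : x⁻¹ * b = y * a⁻¹ := by
      have : b = x * y * a⁻¹ := by rw [hba]; group
      rw [this]; group
    have hc2 : x⁻¹ * b ∈ B ρ 1 := by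
      rw [hceq]; exact mul_mem hy (inv_mem ha)
    obtain ⟨b1, hb1, hb1S, b2, hb2, _, hb2S, hb12⟩ := c1 h h1 (m := 1) (j := j) (by omega)
      (by omega) hx hc2 hc1 (by simpa using hbS)
    refine ⟨b1, hb1, hb1S, b2 * a, mul_mem hb2 ha, mul_mem hb2S haS, ?_⟩
    have : b = b1 * b2 := by rw [← hb12]; group
    rw [hba, this]; group
  obtain ⟨b1, hb1, hb1S, a1, ha1, ha1S, hba⟩ := h1j x hx y (B_anti hm hy) hxy
  have hc1 : b1⁻¹ * x ∈ A ρ j := mul_mem (inv_mem hb1) hx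
  have hceq : b1⁻¹ * x = a1 * y⁻¹ := by
    have : x = b1 * a1 * y⁻¹ := by rw [← hba]; group
    rw [this]; group
  have hc2 : b1⁻¹ * x ∈ B ρ 1 := by
    rw [hceq]; exact mul_mem ha1 (inv_mem (B_anti hm hy))
  obtain ⟨a2, ha2, _, ha2S, a3, ha3, ha3S, ha23⟩ := c0 h h0 (m := m) (j := j) hm hmj hc1 hc2 hy
    (by rw [hceq]; simpa using ha1S)
  refine ⟨b1 * a2, mul_mem hb1 ha2, a3, ha3, mul_mem hb1S ha2S, ha3S, ?_⟩
  calc x * y = b1 * (b1⁻¹ * x * y) := by group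
    _ = b1 * (a2 * a3) := by rw [ha23]
    _ = b1 * a2 * a3 := by group

/-- Theorem C, condition (1), for one conjugate -/
lemma one_all (h : IsStringC ρ) {S : Subgroup Γ}
    (h0 : Semisparse (lowGen ρ) (S.subgroupOf (par ρ {(0 : Fin (n+2))}ᶜ)))
    (h1 : Semisparse (upGen ρ) (S.subgroupOf (par ρ {Fin.last (n+1)}ᶜ)))
    (h2 : ∀ m j : ℕ, m ≤ j → Sp ρ S m j) : One ρ S := by
  intro i γ hγ hS
  obtain ⟨α, hα, β, hβ, rfl⟩ := mem_G h hγ
  rcases Nat.lt_or_ge (i : ℕ) (n + 1) with hi | hi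
  · have hri : ρ i ∈ A ρ (i + 1) := rho_mem (by simp)
    have hαi : α ∈ A ρ (i + 1) := A_mono (Nat.le_succ _) hα
    have h3 : (α * ρ i)⁻¹ * β⁻¹ ∈ S := by
      have := inv_mem hS
      rw [commAB h hα hβ] at this
      convert this using 1
      group
    obtain ⟨a, ha, b, hb, haS, hbS, hab⟩ := h2 (i + 1) (i + 1) le_rfl (α * ρ i)⁻¹
      (inv_mem (mul_mem hαi hri)) β⁻¹ (inv_mem hβ) h3
    have h4 : a⁻¹ * (α * ρ i)⁻¹ = b * β := by
      have : (α * ρ i)⁻¹ = a * b * β := by rw [← hab]; group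
      rw [this]; group
    have h5 : a⁻¹ * (α * ρ i)⁻¹ = 1 := by
      refine AB_bot h (m := i + 1) (mul_mem (inv_mem ha) (inv_mem (mul_mem hαi hri))) ?_
      rw [h4]; exact mul_mem hb hβ
    have h6 : α * ρ i = a⁻¹ := (inv_mul_eq_one.1 (by
      have : (α * ρ i)⁻¹ * a⁻¹ = 1 := by
        rw [← mul_inv_rev, inv_eq_one]
        have := h5
        rw [← mul_inv_rev, inv_eq_one] at this
        rw [mul_eq_one_iff_eq_inv] at this ⊢
        rw [this]; simp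
      exact this))
    have hαS : α * ρ i ∈ S := by rw [h6]; exact inv_mem haS
    -- contradiction in `Γ_{n-1}`
    have hαlast : α ∈ par ρ {Fin.last (n + 1)}ᶜ := by
      rw [← A_last]; exact A_mono (by omega) hα
    have h8 : (⟨α, hαlast⟩ : par ρ {Fin.last (n + 1)}ᶜ) ∈ A (upGen ρ) (i : ℕ) :=
      (mem_A_up (i : ℕ) hi.le _).2 hα
    have h9 : (⟨α, hαlast⟩ : par ρ {Fin.last (n + 1)}ᶜ) ∈
        par (upGen ρ) {(⟨i, hi⟩ : Fin (n + 1))}ᶜ :=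
      A_le_G (j := (i : ℕ)) (k := (⟨i, hi⟩ : Fin (n + 1))) le_rfl h8
    have h7 := (h1.w (upGen_C h)).1 1 ⟨i, hi⟩ ⟨α, hαlast⟩ h9
    rw [cnj_one, Subgroup.mem_subgroupOf] at h7
    exact h7 hαS
  · have hi' : i = Fin.last (n + 1) := Fin.ext (by have := i.2; simp; omega)
    subst hi'
    have hβ1 : β = 1 := by
      have : β ∈ B ρ (n + 2) := hβ
      rw [B_bot le_rfl, Subgroup.mem_bot] at this
      exact this
    subst hβ1
    rw [mul_one] at hS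
    have hr : ρ (Fin.last (n + 1)) ∈ B ρ (n + 1) := rho_mem (by simp)
    have hα' : α ∈ A ρ (n + 1) := hα
    obtain ⟨a, ha, b, hb, haS, hbS, hab⟩ := h2 (n + 1) (n + 1) le_rfl α hα' _ hr hS
    have h4 : a⁻¹ * α = b * (ρ (Fin.last (n + 1)))⁻¹ := by
      have : α = a * b * (ρ (Fin.last (n + 1)))⁻¹ := by rw [← hab]; group
      rw [this]; group
    have h5 : b * (ρ (Fin.last (n + 1)))⁻¹ = 1 := by
      refine AB_bot h (m := n + 1) ?_ (mul_mem hb (inv_mem hr))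
      rw [← h4]; exact mul_mem (inv_mem ha) hα'
    have h6 : b = ρ (Fin.last (n + 1)) := mul_inv_eq_one.1 h5
    have h7 := (h0.w (lowGen_C h)).1 1 (Fin.last n) 1 (one_mem _)
    apply h7
    rw [cnj_one, Subgroup.mem_subgroupOf, one_mul]
    show ρ (Fin.last n).succ ∈ S
    rw [Fin.succ_last, ← h6]
    exact hbS

/-- **Main theorem** (Q1, answered affirmatively). Let `Γ` be a string C-group of rank
`n + 2 ≥ 2` and `S ≤ Γ` a subgroup such that for all `φ ∈ Γ` the subgroup `S^φ ∩ Γ₀` is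
semisparse in `Γ₀`, the subgroup `S^φ ∩ Γ_{n+1}` is semisparse in `Γ_{n+1}`, and
`S^φ ∩ Γ₀Γ_{n+1} = (S^φ ∩ Γ₀)(S^φ ∩ Γ_{n+1})`. Then `S` is semisparse in `Γ`. -/
theorem result {Γ : Type*} [Group Γ] {n : ℕ} (ρ : Fin (n + 2) → Γ) (hρ : IsStringC ρ)
    (S : Subgroup Γ)
    (h0 : ∀ φ : Γ, Semisparse (lowGen ρ) ((cnj φ S).subgroupOf (par ρ {(0 : Fin (n+2))}ᶜ)))
    (h1 : ∀ φ : Γ, Semisparse (upGen ρ) ((cnj φ S).subgroupOf (par ρ {Fin.last (n+1)}ᶜ)))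
    (h2 : ∀ φ : Γ, (cnj φ S : Set Γ) ∩
        ((par ρ {(0 : Fin (n+2))}ᶜ : Set Γ) * (par ρ {Fin.last (n+1)}ᶜ : Set Γ))
      = ((cnj φ S ⊓ par ρ {(0 : Fin (n+2))}ᶜ : Subgroup Γ) : Set Γ)
        * ((cnj φ S ⊓ par ρ {Fin.last (n+1)}ᶜ : Subgroup Γ) : Set Γ)) :
    Semisparse ρ S :=
  semisparse_of hρ
    (fun φ => one_all hρ (h0 φ) (h1 φ) (sp_all hρ (h0 φ) (h1 φ) (h2 φ)))
    (fun φ => sp_all hρ (h0 φ) (h1 φ) (h2 φ))

end final

end Pool.Agent.Results.MP_bc764a_al.SemisparseCriterion
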